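import Pool.Agent.H14R3.Aug.Assembly
import Pool.Agent.H851R3.Aug.TreeAB
import Pool.Agent.H189R3.Aug.Trace
import Pool.Agent.H531R3.Aug.Resolv
import Pool.Agent.H410R3.Aug.InjLim
import Pool.Agent.H265R3.Aug.TaskDim
import Pool.Agent.H14R3.Aug.GradPot
import Pool.Agent.H720R3.Aug.GradOp
import Pool.Agent.H14R3.Aug.TaskRestrSol
import Pool.Agent.H14R3.Aug.TaskExtSol
import Pool.Agent.H360R3.Aug.TaskRestr
import Pool.Agent.H421R3.Aug.FinDim
import Pool.Agent.H783R3.Aug.Tail
import Pool.Agent.H14R3.Aug.TaskDecay
import Pool.Agent.H14R3.Aug.Bound
import Pool.Agent.Helper923.Aug.Exist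
import Pool.Agent.H801R3.Aug.TaskFinal

/-!
Fewer than n finitely supported elements of the augmentation ideal of the algebra of absolutely
summable functions on the free group of rank n never generate it as a closed right ideal.

Sketch. A von Neumann dimension count gives a nonzero square summable gradient field in the
kernel of the operator of the generators. Its potential solves the homogeneous equations. Removing
the projection to the solutions vanishing on a ball leaves a solution that is minimal on every
distant cone of the tree; minimal solutions on a cone form a finite-dimensional space, so their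
energy decays geometrically and the potential is bounded. A bounded nonconstant solution is a
functional that kills the closed right ideal but not the augmentation ideal.
-/

set_option autoImplicit false

namespace Pool.Agent.Results.MP_c3cf66_an.FiniteSupport

/-- Membership in the augmentation ideal of the algebra of absolutely summable functions on the
free group on n generators: absolutely summable with sum zero. -/
def InI0 {n : ℕ} (f : FreeGroup (Fin n) → ℂ) : Prop :=
  Summable (fun g => ‖f g‖) ∧ ∑' g, f g = 0

/-- The convolution product. -/
noncomputable def convProd {n : ℕ} (b c : FreeGroup (Fin n) → ℂ) : FreeGroup (Fin n) → ℂ :=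
  fun x => ∑' g, b g * c (g⁻¹ * x)

/-- The closed right ideal generated by x 1, ..., x k: the closure, in the norm of absolutely
summable functions, of the set of all sums of products x j * f j with f j absolutely summable. -/
def closedRightIdeal {n k : ℕ} (x : Fin k → FreeGroup (Fin n) → ℂ) :
    Set (FreeGroup (Fin n) → ℂ) :=
  {g | Summable (fun s => ‖g s‖) ∧ ∀ ε : ℝ, 0 < ε → ∃ f : Fin k → FreeGroup (Fin n) → ℂ,
    (∀ j, Summable fun s => ‖f j s‖) ∧ ∑' s, ‖g s - ∑ j, convProd (x j) (f j) s‖ < ε}

open Pool.Agent.H14R3.Aug in
/-- For every n and every k less than n, the closed right ideal generated by k finitely supported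
elements of the augmentation ideal of the free group of rank n is not the augmentation ideal. -/
theorem result (n k : ℕ) (hk : k < n) (x : Fin k → FreeGroup (Fin n) → ℂ)
    (hx : ∀ j, InI0 (x j)) (hfin : ∀ j, (Function.support (x j)).Finite) :
    closedRightIdeal x ≠ {g | InI0 g} :=
  final_of treeA treeB trace_proof Pool.Agent.H531R3.Aug.resolv_proof InjLim_proof TaskDim_proof
    GradPot_proof GradOp_proof TaskRestrSol_proof TaskExtSol_proof
    Pool.Agent.H360R3.Aug.TaskRestr_proof Pool.Agent.H421R3.Aug.FinDim_proof
    Pool.Agent.H783R3.Aug.Tail_proof TaskDecay_proof Bound_proof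
    Pool.Agent.Helper923.Aug.Exist_proof Pool.Agent.H801R3.Aug.TaskFinal_proof n k hk x hx hfin

end Pool.Agent.Results.MP_c3cf66_an.FiniteSupport
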